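import Pool.Agent.Helper32.NO.Defs

/-!
# Blocks with one simple module and extensions by a `2`-group
-/

set_option autoImplicit false
set_option linter.unusedSectionVars false
open scoped BigOperators MonoidAlgebra
open Classical

namespace Pool.Agent.Helper52.NO

open Pool.Agent.Helper36.NB Pool.Agent.Helper44.S3 Pool.Agent.Helper32.ND
open Pool.Agent.Helper32.NO

/-- The decomposition of `k[H]` modulo its radical. -/
theorem exists_wedd (k : Type) [Field k] [IsAlgClosed k] (H : Type) [Group H] [Finite H] :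
    ∃ (m : ℕ) (d : Fin m → ℕ)
      (P : MonoidAlgebra k H →ₐ[k] (∀ i, Matrix (Fin (d i)) (Fin (d i)) k)),
      (∀ i, 0 < d i) ∧ Function.Surjective P ∧ ∀ a, P a = 0 → IsNilpotent a := by
  have hfin : Module.Finite k (MonoidAlgebra k H) := by
    infer_instance
  have hart : IsArtinianRing (MonoidAlgebra k H) := IsArtinianRing.of_finite k _
  have hfq : FiniteDimensional k (MonoidAlgebra k H ⧸ Ring.jacobson (MonoidAlgebra k H)) :=
    Module.Finite.of_surjective
      (Ideal.Quotient.mkₐ k (Ring.jacobson (MonoidAlgebra k H))).toLinearMap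
      Ideal.Quotient.mk_surjective
  obtain ⟨m, d, hd, ⟨e⟩⟩ := IsSemisimpleRing.exists_algEquiv_pi_matrix_of_isAlgClosed
    k (MonoidAlgebra k H ⧸ Ring.jacobson (MonoidAlgebra k H))
  refine ⟨m, d, e.toAlgHom.comp (Ideal.Quotient.mkₐ k (Ring.jacobson (MonoidAlgebra k H))),
    fun i => Nat.pos_of_ne_zero (hd i).out, ?_, ?_⟩
  · intro x
    obtain ⟨y, hy⟩ := e.surjective x
    obtain ⟨z, hz⟩ := Ideal.Quotient.mk_surjective y
    refine ⟨z, ?_⟩
    change e (Ideal.Quotient.mk _ z) = x
    rw [hz, hy]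
  · intro a ha
    have h1 : (Ideal.Quotient.mk (Ring.jacobson (MonoidAlgebra k H)) a) = 0 := by
      apply e.injective
      rw [map_zero]
      exact ha
    have h2 : a ∈ Ring.jacobson (MonoidAlgebra k H) := Ideal.Quotient.eq_zero_iff_mem.mp h1
    obtain ⟨N, hN⟩ := (IsSemiprimaryRing.isNilpotent (R := MonoidAlgebra k H))
    refine ⟨N, ?_⟩
    have h3 : a ^ N ∈ (Ring.jacobson (MonoidAlgebra k H)) ^ N := Ideal.pow_mem_pow h2 N
    rw [hN] at h3
    exact h3

/-- A central linear function on a matrix algebra is a multiple of the trace. -/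
theorem linear_trace {k : Type} [Field k] {n : ℕ} (hn : 0 < n)
    (μ : Matrix (Fin n) (Fin n) k →ₗ[k] k) (hμ : ∀ X Y, μ (X * Y) = μ (Y * X))
    (X : Matrix (Fin n) (Fin n) k) :
    μ X = μ (Matrix.single ⟨0, hn⟩ ⟨0, hn⟩ 1) * X.trace := by
  have h1 : ∀ i j : Fin n, μ (Matrix.single i j (1 : k)) =
      if i = j then μ (Matrix.single ⟨0, hn⟩ ⟨0, hn⟩ 1) else 0 := by
    intro i j
    by_cases h : i = j
    · subst h
      rw [if_pos rfl]
      have h2 : (Matrix.single i i (1 : k)) =
          Matrix.single i ⟨0, hn⟩ 1 * Matrix.single ⟨0, hn⟩ i 1 := by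
        rw [Matrix.single_mul_single_same, mul_one]
      rw [h2, hμ, Matrix.single_mul_single_same, mul_one]
    · rw [if_neg h]
      have h2 : (Matrix.single i j (1 : k)) = Matrix.single i i 1 * Matrix.single i j 1 := by
        rw [Matrix.single_mul_single_same, mul_one]
      rw [h2, hμ, Matrix.single_mul_single_of_ne _ _ _ _ (Ne.symm h), map_zero]
  conv_lhs => rw [Matrix.matrix_eq_sum_single X]
  rw [map_sum]
  have h3 : ∀ i, μ (∑ j, Matrix.single i j (X i j)) =
      μ (Matrix.single ⟨0, hn⟩ ⟨0, hn⟩ 1) * X i i := by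
    intro i
    rw [map_sum, Finset.sum_eq_single i]
    · have h4 : Matrix.single i i (X i i) = X i i • Matrix.single i i (1 : k) := by
        rw [Matrix.smul_single, smul_eq_mul, mul_one]
      rw [h4, map_smul, h1, if_pos rfl, smul_eq_mul, mul_comm]
    · intro j _ hj
      have h4 : Matrix.single i j (X i j) = X i j • Matrix.single i j (1 : k) := by
        rw [Matrix.smul_single, smul_eq_mul, mul_one]
      rw [h4, map_smul, h1, if_neg (Ne.symm hj), smul_zero]
    · intro h
      exact absurd (Finset.mem_univ i) h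
  simp only [h3]
  rw [← Finset.mul_sum]
  rfl

/-- A central idempotent matrix is `0` or `1`. -/
theorem central_idem {k : Type} [Field k] {n : ℕ} (hn : 0 < n) (X : Matrix (Fin n) (Fin n) k)
    (hX : X * X = X) (hc : ∀ Y, Y * X = X * Y) : X = 0 ∨ X = 1 := by
  have hcen : X ∈ Set.center (Matrix (Fin n) (Fin n) k) := by
    rw [Semigroup.mem_center_iff]
    exact hc
  rw [Matrix.center_eq_range] at hcen
  obtain ⟨c, rfl⟩ := hcen
  have hne : Nonempty (Fin n) := ⟨⟨0, hn⟩⟩
  have hcc : c * c = c := by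
    rw [← map_mul] at hX
    exact Matrix.scalar_inj.mp hX
  have hc0 : c * (c - 1) = 0 := by rw [mul_sub, hcc, mul_one, sub_self]
  rcases mul_eq_zero.mp hc0 with h0 | h1
  · left; rw [h0, map_zero]
  · right; rw [sub_eq_zero.mp h1, map_one]

/-- A central nilpotent matrix is `0`. -/
theorem central_nil {k : Type} [Field k] {n : ℕ} (hn : 0 < n) (X : Matrix (Fin n) (Fin n) k)
    (hX : IsNilpotent X) (hc : ∀ Y, Y * X = X * Y) : X = 0 := by
  have hcen : X ∈ Set.center (Matrix (Fin n) (Fin n) k) := by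
    rw [Semigroup.mem_center_iff]
    exact hc
  rw [Matrix.center_eq_range] at hcen
  obtain ⟨c, rfl⟩ := hcen
  have hne : Nonempty (Fin n) := ⟨⟨0, hn⟩⟩
  obtain ⟨N, hN⟩ := hX
  rw [← map_pow, ← map_zero (Matrix.scalar (Fin n))] at hN
  have h1 : c ^ N = 0 := Matrix.scalar_inj.mp hN
  have h2 : c = 0 := IsNilpotent.eq_zero ⟨N, h1⟩
  rw [h2, map_zero]

theorem idem_nil {A : Type} [Ring A] {a : A} (h : a * a = a) (hn : IsNilpotent a) : a = 0 := by
  obtain ⟨N, hN⟩ := hn
  have hpw : ∀ N, a ^ (N + 1) = a := by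
    intro N
    induction N with
    | zero => simp
    | succ N ih => rw [pow_succ, ih, h]
  rw [← hpw N, pow_succ, hN, zero_mul]

/-- A central idempotent with one simple module is a block. -/
theorem block_of_simpleQuot {k : Type} [Field k] {H : Type} [Group H] {f : MonoidAlgebra k H}
    (S : SimpleQuot f) (hf : f * f = f) (hfc : ∀ a, a * f = f * a) : IsBlock f := by
  have hne : Nonempty (Fin S.n) := ⟨⟨0, S.pos⟩⟩
  refine ⟨?_, hf, hfc, ?_⟩
  · intro h0
    subst h0
    have := S.one
    rw [map_zero] at this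
    exact zero_ne_one this
  · intro h hh hc
    have h1 : S.ρ h = 0 ∨ S.ρ h = 1 := by
      apply central_idem S.pos
      · rw [← map_mul, hh]
      · intro Y
        obtain ⟨a, rfl⟩ := S.surj Y
        rw [← map_mul, ← map_mul, hc]
    rcases h1 with h1 | h1
    · left
      apply idem_nil _ (S.nil _ h1)
      calc h * f * (h * f) = h * (f * h) * f := by noncomm_ring
        _ = h * (h * f) * f := by rw [hc f]
        _ = (h * h) * (f * f) := by noncomm_ring
        _ = h * f := by rw [hh, hf]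
    · right
      have h2 : S.ρ (1 - h) = 0 := by rw [map_sub, map_one, h1, sub_self]
      have h3 : (1 - h) * f = 0 := by
        apply idem_nil _ (S.nil _ h2)
        calc (1 - h) * f * ((1 - h) * f)
            = (1 - h) * (f * f - f * h * f) := by noncomm_ring
          _ = (1 - h) * (f * f - h * (f * f)) := by rw [hc f]; noncomm_ring
          _ = (1 - h - h + h * h) * (f * f) := by noncomm_ring
          _ = (1 - h - h + h) * (f * f) := by rw [hh]
          _ = (1 - h) * (f * f) := by noncomm_ring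
          _ = (1 - h) * f := by rw [hf]
      rw [sub_mul, one_mul, sub_eq_zero] at h3
      exact h3.symm

/-- The `2'`-part. -/
theorem exists_odd_part {R : Type} [Group R] [Finite R] (g : R) :
    ∃ u v : R, g = u * v ∧ Commute u v ∧ (∃ m : ℕ, u ^ (2 ^ m) = 1) ∧ Odd (orderOf v) := by
  obtain ⟨m, s, hs, hn⟩ := Nat.exists_eq_two_pow_mul_odd (orderOf_pos g).ne'
  have hcop : Nat.Coprime (2 ^ m) s := (Nat.coprime_two_left.mpr hs).pow_left m
  have hbez : (1 : ℤ) = (2 ^ m : ℕ) * Nat.gcdA (2 ^ m) s + s * Nat.gcdB (2 ^ m) s := by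
    have := Nat.gcd_eq_gcd_ab (2 ^ m) s
    rw [hcop.gcd_eq_one] at this
    exact_mod_cast this
  refine ⟨g ^ ((s : ℤ) * Nat.gcdB (2 ^ m) s), g ^ (((2 ^ m : ℕ) : ℤ) * Nat.gcdA (2 ^ m) s), ?_, ?_,
    ⟨m, ?_⟩, ?_⟩
  · rw [← zpow_add, add_comm, ← hbez, zpow_one]
  · exact (Commute.refl g).zpow_zpow _ _
  · rw [← zpow_natCast, ← zpow_mul]
    have h1 : (s : ℤ) * Nat.gcdB (2 ^ m) s * ((2 ^ m : ℕ) : ℤ) =
        ((orderOf g : ℕ) : ℤ) * Nat.gcdB (2 ^ m) s := by
      rw [hn]; push_cast; ring
    rw [h1, zpow_mul, zpow_natCast, pow_orderOf_eq_one, one_zpow]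
  · have h1 : (g ^ (((2 ^ m : ℕ) : ℤ) * Nat.gcdA (2 ^ m) s)) ^ s = 1 := by
      rw [← zpow_natCast, ← zpow_mul]
      have h2 : ((2 ^ m : ℕ) : ℤ) * Nat.gcdA (2 ^ m) s * (s : ℤ) =
          ((orderOf g : ℕ) : ℤ) * Nat.gcdA (2 ^ m) s := by
        rw [hn]; push_cast; ring
      rw [h2, zpow_mul, zpow_natCast, pow_orderOf_eq_one, one_zpow]
    exact Odd.of_dvd_nat hs (orderOf_dvd_of_pow_eq_one h1)

/-- Elements of `2`-power order are unipotent. -/
theorem el_sub_one_nil {k : Type} [Field k] [CharP k 2] {R : Type} [Group R] (u : R) (m : ℕ)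
    (hu : u ^ (2 ^ m) = 1) : (el k u - 1) ^ (2 ^ m) = 0 := by
  have hel : ∀ n : ℕ, (el k u) ^ n = el k (u ^ n) := by
    intro n
    induction n with
    | zero => rw [pow_zero, pow_zero]; rfl
    | succ n ih => rw [pow_succ, ih, pow_succ, el_mul]
  have hch : CharP (MonoidAlgebra k R) 2 := by
    apply CharTwo.of_one_ne_zero_of_two_eq_zero one_ne_zero
    have h2 : (2 : k) = 0 := CharTwo.two_eq_zero
    have h3 : (2 : MonoidAlgebra k R) = algebraMap k (MonoidAlgebra k R) 2 := (map_ofNat _ 2).symm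
    rw [h3, h2, map_zero]
  rw [sub_pow_char_pow_of_commute 2 m (Commute.one_right _), hel, hu, one_pow]
  exact sub_self _

section main

variable {k : Type} [Field k] [IsAlgClosed k] [CharP k 2] {C R : Type} [Group C] [Finite C]
    [Group R] [Finite R] (φ : C →* R)

/-- The map `k[C] → k[R]`. -/
noncomputable def Ph (k : Type) [Field k] {C R : Type} [Group C] [Group R] (φ : C →* R) :
    MonoidAlgebra k C →ₐ[k] MonoidAlgebra k R :=
  MonoidAlgebra.mapDomainAlgHom k k φ

theorem Ph_apply (a : MonoidAlgebra k C) : Ph k φ a = MonoidAlgebra.mapDomain φ a := rfl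

theorem Ph_el (c : C) : Ph k φ (el k c) = el k (φ c) := by
  rw [Ph_apply, el, MonoidAlgebra.mapDomain_single]
  rfl

theorem single_eq (c : C) (r : k) : (MonoidAlgebra.single c r : MonoidAlgebra k C) =
    r • el k c := by
  simp [el]

/-- The kernel of `φ` acts trivially on the simple module. -/
theorem rho_ker (hker : IsPGroup 2 φ.ker) (hkc : ∀ z ∈ φ.ker, ∀ c, z * c = c * z)
    {b : MonoidAlgebra k C} (S : SimpleQuot b) (z : C) (hz : z ∈ φ.ker) : S.ρ (el k z) = 1 := by
  obtain ⟨m, hm⟩ := hker ⟨z, hz⟩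
  have hm' : z ^ (2 ^ m) = 1 := by
    have := congrArg Subtype.val hm
    simpa using this
  have h1 : S.ρ (el k z - 1) = 0 := by
    apply central_nil S.pos
    · exact IsNilpotent.map ⟨2 ^ m, el_sub_one_nil z m hm'⟩ S.ρ
    · intro Y
      obtain ⟨a, rfl⟩ := S.surj Y
      rw [← map_mul, ← map_mul]
      congr 1
      rw [mul_sub, sub_mul, mul_one, one_mul]
      congr 1
      induction a using MonoidAlgebra.induction_linear with
      | zero => simp
      | add x y hx hy => rw [add_mul, mul_add, hx, hy]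
      | single c r =>
        rw [single_eq, smul_mul_assoc, mul_smul_comm, ← el_mul, ← el_mul, hkc z hz]
  rw [map_sub, map_one, sub_eq_zero] at h1
  exact h1

theorem rho_congr (hker : IsPGroup 2 φ.ker) (hkc : ∀ z ∈ φ.ker, ∀ c, z * c = c * z)
    {b : MonoidAlgebra k C} (S : SimpleQuot b) (c c' : C) (h : φ c = φ c') :
    S.ρ (el k c) = S.ρ (el k c') := by
  have h1 : c * c'⁻¹ ∈ φ.ker := by
    rw [MonoidHom.mem_ker, map_mul, map_inv, h, mul_inv_cancel]
  have h2 : c = (c * c'⁻¹) * c' := by group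
  rw [h2, el_mul, map_mul, rho_ker φ hker hkc S _ h1, one_mul]

/-- The simple module is defined on the image of `φ`. -/
theorem rho_Ph (hker : IsPGroup 2 φ.ker) (hkc : ∀ z ∈ φ.ker, ∀ c, z * c = c * z)
    {b : MonoidAlgebra k C} (S : SimpleQuot b) (a : MonoidAlgebra k C) (h : Ph k φ a = 0) :
    S.ρ a = 0 := by
  have hR : Fintype R := Fintype.ofFinite R
  let s : R → Matrix (Fin S.n) (Fin S.n) k := fun r =>
    if h : ∃ c, φ c = r then S.ρ (el k h.choose) else 0
  have hs : ∀ c, s (φ c) = S.ρ (el k c) := by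
    intro c
    have h1 : ∃ c', φ c' = φ c := ⟨c, rfl⟩
    change (if h : ∃ c', φ c' = φ c then S.ρ (el k h.choose) else 0) = _
    rw [dif_pos h1]
    exact rho_congr φ hker hkc S _ _ h1.choose_spec
  have hL : ∀ a : MonoidAlgebra k C, S.ρ a = ∑ r : R, (Ph k φ a).coeff r • s r := by
    intro a
    induction a using MonoidAlgebra.induction_linear with
    | zero => simp
    | add x y hx hy =>
      rw [map_add, map_add, hx, hy, ← Finset.sum_add_distrib]
      refine Finset.sum_congr rfl fun r _ => ?_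
      rw [MonoidAlgebra.coeff_add, Finsupp.add_apply, add_smul]
    | single c r =>
      rw [single_eq, map_smul, map_smul, Ph_el, Finset.sum_eq_single (φ c)]
      · rw [MonoidAlgebra.coeff_smul, Finsupp.smul_apply, el_coeff, if_pos rfl, hs, smul_eq_mul,
          mul_one]
      · intro r' _ hr'
        rw [MonoidAlgebra.coeff_smul, Finsupp.smul_apply, el_coeff, if_neg (Ne.symm hr'),
          smul_zero, zero_smul]
      · intro h
        exact absurd (Finset.mem_univ _) h
  rw [hL, h]
  simp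

/-- Conjugates of elements of `k[φ(C)]`. -/
theorem exists_conj (hnorm : φ.range.Normal) (r : R) (a : MonoidAlgebra k C) :
    ∃ a' : MonoidAlgebra k C, Ph k φ a' = el k r * Ph k φ a * el k r⁻¹ := by
  induction a using MonoidAlgebra.induction_linear with
  | zero => exact ⟨0, by simp⟩
  | add x y hx hy =>
    obtain ⟨x', hx'⟩ := hx
    obtain ⟨y', hy'⟩ := hy
    exact ⟨x' + y', by rw [map_add, hx', hy', map_add, mul_add, add_mul]⟩
  | single c s =>
    obtain ⟨c', hc'⟩ := hnorm.conj_mem (φ c) ⟨c, rfl⟩ r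
    refine ⟨s • el k c', ?_⟩
    rw [single_eq, map_smul, map_smul, Ph_el, Ph_el, mul_smul_comm, smul_mul_assoc, ← el_mul,
      ← el_mul, hc']

/-- The image of `b` is a block of the image of `φ`. -/
theorem image_block (hker : IsPGroup 2 φ.ker) (hkc : ∀ z ∈ φ.ker, ∀ c, z * c = c * z)
    {b : MonoidAlgebra k C} (hb : IsBlock b) (S : SimpleQuot b) (β : MonoidAlgebra k C)
    (hβ : Ph k φ β * Ph k φ β = Ph k φ β) (hβc : ∀ a, Ph k φ a * Ph k φ β = Ph k φ β * Ph k φ a) :
    Ph k φ β * Ph k φ b = 0 ∨ Ph k φ β * Ph k φ b = Ph k φ b := by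
  have h1 : ∀ x y : MonoidAlgebra k C, Ph k φ x = Ph k φ y → S.ρ x = S.ρ y := by
    intro x y hxy
    have := rho_Ph φ hker hkc S (x - y) (by rw [map_sub, hxy, sub_self])
    rwa [map_sub, sub_eq_zero] at this
  have h2 : S.ρ β = 0 ∨ S.ρ β = 1 := by
    apply central_idem S.pos
    · rw [← map_mul]
      apply h1
      rw [map_mul, hβ]
    · intro Y
      obtain ⟨a, rfl⟩ := S.surj Y
      rw [← map_mul, ← map_mul]
      apply h1
      rw [map_mul, map_mul, hβc]
  obtain ⟨-, hbb, hbc, -⟩ := hb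
  have hid : ∀ x : MonoidAlgebra k C, Ph k φ x * Ph k φ x = Ph k φ x →
      (Ph k φ x * Ph k φ b) * (Ph k φ x * Ph k φ b) = Ph k φ x * Ph k φ b := by
    intro x hx
    calc (Ph k φ x * Ph k φ b) * (Ph k φ x * Ph k φ b)
        = Ph k φ x * Ph k φ (b * x) * Ph k φ b := by rw [map_mul]; noncomm_ring
      _ = Ph k φ x * Ph k φ (x * b) * Ph k φ b := by rw [hbc]
      _ = (Ph k φ x * Ph k φ x) * Ph k φ (b * b) := by rw [map_mul, map_mul]; noncomm_ring
      _ = Ph k φ x * Ph k φ b := by rw [hx, hbb]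
  rcases h2 with h2 | h2
  · left
    apply idem_nil (hid β hβ)
    have := (S.nil _ h2).map (Ph k φ)
    rwa [map_mul] at this
  · right
    have h3 : S.ρ (1 - β) = 0 := by rw [map_sub, map_one, h2, sub_self]
    have h4 := (S.nil _ h3).map (Ph k φ)
    rw [map_mul] at h4
    have h5 : Ph k φ (1 - β) * Ph k φ b = 0 := by
      apply idem_nil (hid _ _) h4
      rw [map_sub, map_one]
      calc (1 - Ph k φ β) * (1 - Ph k φ β) = 1 - Ph k φ β - Ph k φ β + Ph k φ β * Ph k φ β := by
            noncomm_ring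
        _ = 1 - Ph k φ β := by rw [hβ]; noncomm_ring
    rw [map_sub, map_one, sub_mul, one_mul, sub_eq_zero] at h5
    exact h5.symm

/-- The conjugates of the image of `b` are equal or orthogonal. -/
theorem conj_orth (hker : IsPGroup 2 φ.ker) (hkc : ∀ z ∈ φ.ker, ∀ c, z * c = c * z)
    (hnorm : φ.range.Normal) {b : MonoidAlgebra k C} (hb : IsBlock b) (S : SimpleQuot b) (r : R) :
    Ph k φ b * (el k r * Ph k φ b * el k r⁻¹) = 0 ∨ el k r * Ph k φ b * el k r⁻¹ = Ph k φ b := by
  have hbb : Ph k φ b * Ph k φ b = Ph k φ b := by rw [← map_mul, hb.2.1]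
  have hbc : ∀ a, Ph k φ a * Ph k φ b = Ph k φ b * Ph k φ a := by
    intro a
    rw [← map_mul, ← map_mul, hb.2.2.1]
  have hb0 : Ph k φ b ≠ 0 := by
    intro h0
    have h1 := rho_Ph φ hker hkc S b h0
    rw [S.one] at h1
    have hne : Nonempty (Fin S.n) := ⟨⟨0, S.pos⟩⟩
    exact one_ne_zero h1
  set B := Ph k φ b with hB
  -- the alternative
  have key : ∀ r : R, (el k r * B * el k r⁻¹) * B = 0 ∨ (el k r * B * el k r⁻¹) * B = B := by
    intro r
    obtain ⟨β, hβ⟩ := exists_conj φ hnorm r b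
    have h1 := image_block φ hker hkc hb S β
      (by
        rw [hβ]
        calc el k r * Ph k φ b * el k r⁻¹ * (el k r * Ph k φ b * el k r⁻¹)
            = el k r * Ph k φ b * (el k r⁻¹ * el k r) * Ph k φ b * el k r⁻¹ := by noncomm_ring
          _ = el k r * (Ph k φ b * Ph k φ b) * el k r⁻¹ := by
              rw [el_inv_mul_el]; noncomm_ring
          _ = _ := by rw [hbb])
      (by
        intro a
        obtain ⟨a', ha'⟩ := exists_conj φ hnorm r⁻¹ a
        rw [inv_inv] at ha'
        have h2 : Ph k φ a = el k r * Ph k φ a' * el k r⁻¹ := by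
          rw [ha']
          calc Ph k φ a = 1 * Ph k φ a * 1 := by rw [one_mul, mul_one]
            _ = (el k r * el k r⁻¹) * Ph k φ a * (el k r * el k r⁻¹) := by rw [el_mul_el_inv]
            _ = _ := by noncomm_ring
        rw [hβ, h2]
        calc el k r * Ph k φ a' * el k r⁻¹ * (el k r * Ph k φ b * el k r⁻¹)
            = el k r * Ph k φ a' * (el k r⁻¹ * el k r) * Ph k φ b * el k r⁻¹ := by noncomm_ring
          _ = el k r * (Ph k φ a' * Ph k φ b) * el k r⁻¹ := by
              rw [el_inv_mul_el]; noncomm_ring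
          _ = el k r * (Ph k φ b * Ph k φ a') * el k r⁻¹ := by rw [hbc]
          _ = el k r * Ph k φ b * (el k r⁻¹ * el k r) * Ph k φ a' * el k r⁻¹ := by
              rw [el_inv_mul_el]; noncomm_ring
          _ = _ := by noncomm_ring)
    rw [hβ] at h1
    exact h1
  have hcomm : ∀ r : R, B * (el k r * B * el k r⁻¹) = (el k r * B * el k r⁻¹) * B := by
    intro r
    obtain ⟨β, hβ⟩ := exists_conj φ hnorm r b
    rw [← hβ, hbc]
  rcases key r with h1 | h1
  · left
    rw [hcomm, h1]
  · right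
    -- conjugate by `r⁻¹`
    have h2 : B * (el k r⁻¹ * B * el k r) = el k r⁻¹ * B * el k r := by
      calc B * (el k r⁻¹ * B * el k r)
          = (el k r⁻¹ * el k r) * B * (el k r⁻¹ * B * el k r) := by
            rw [el_inv_mul_el, one_mul]
        _ = el k r⁻¹ * ((el k r * B * el k r⁻¹) * B) * el k r := by noncomm_ring
        _ = _ := by rw [h1]
    have h3 := key r⁻¹
    have h4 := hcomm r⁻¹
    rw [inv_inv] at h3 h4
    rw [h2] at h4
    rw [← h4] at h3
    rcases h3 with h3 | h3
    · exfalso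
      apply hb0
      calc B = (el k r * el k r⁻¹) * B * (el k r * el k r⁻¹) := by
            rw [el_mul_el_inv, one_mul, mul_one]
        _ = el k r * (el k r⁻¹ * B * el k r) * el k r⁻¹ := by noncomm_ring
        _ = 0 := by rw [h3, mul_zero, zero_mul]
    · calc el k r * B * el k r⁻¹ = el k r * (el k r⁻¹ * B * el k r) * el k r⁻¹ := by rw [h3]
        _ = (el k r * el k r⁻¹) * B * (el k r * el k r⁻¹) := by noncomm_ring
        _ = B := by rw [el_mul_el_inv, one_mul, mul_one]

/-- P3: extension of the block by a `2`-group -/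
theorem ext (hker : IsPGroup 2 φ.ker)
    (hkc : ∀ z ∈ φ.ker, ∀ c, z * c = c * z) (hnorm : φ.range.Normal)
    (hodd : ∀ r : R, Odd (orderOf r) → r ∈ φ.range) (b : MonoidAlgebra k C) (hb : IsBlock b)
    (S : SimpleQuot b) :
    ∃ (f : MonoidAlgebra k R) (T : Finset R), IsBlock f ∧ Nonempty (SimpleQuot f) ∧
      f * MonoidAlgebra.mapDomain φ b = MonoidAlgebra.mapDomain φ b ∧
      f = ∑ r ∈ T, el k r * MonoidAlgebra.mapDomain φ b * el k r⁻¹ := by
  have hFR : Fintype R := Fintype.ofFinite R
  have hBdef : MonoidAlgebra.mapDomain φ b = Ph k φ b := rfl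
  rw [hBdef]
  have horth := conj_orth φ hker hkc hnorm hb S
  have hbb : Ph k φ b * Ph k φ b = Ph k φ b := by rw [← map_mul, hb.2.1]
  have hb0 : Ph k φ b ≠ 0 := by
    intro h0
    have h1 := rho_Ph φ hker hkc S b h0
    rw [S.one] at h1
    have hne : Nonempty (Fin S.n) := ⟨⟨0, S.pos⟩⟩
    exact one_ne_zero h1
  have hbc : ∀ a, Ph k φ a * Ph k φ b = Ph k φ b * Ph k φ a := by
    intro a
    rw [← map_mul, ← map_mul, hb.2.2.1]
  set B := Ph k φ b with hB
  let cjr : R → MonoidAlgebra k R := fun r => el k r * B * el k r⁻¹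
  have hcjr : ∀ r, cjr r = el k r * B * el k r⁻¹ := fun r => rfl
  have hcj1 : cjr 1 = B := by
    rw [hcjr, inv_one, el_one, one_mul, mul_one]
  have hcjm : ∀ g r, el k g * cjr r * el k g⁻¹ = cjr (g * r) := by
    intro g r
    rw [hcjr, hcjr, mul_inv_rev, el_mul, el_mul]
    noncomm_ring
  have hcji : ∀ r, cjr r * cjr r = cjr r := by
    intro r
    rw [hcjr]
    calc el k r * B * el k r⁻¹ * (el k r * B * el k r⁻¹)
        = el k r * B * (el k r⁻¹ * el k r) * B * el k r⁻¹ := by noncomm_ring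
      _ = el k r * (B * B) * el k r⁻¹ := by rw [el_inv_mul_el]; noncomm_ring
      _ = _ := by rw [hbb]
  have hpair : ∀ r s, cjr r * cjr s = 0 ∨ cjr r = cjr s := by
    intro r s
    have h1 : cjr s = el k r * cjr (r⁻¹ * s) * el k r⁻¹ := by
      rw [hcjm, mul_inv_cancel_left]
    have h2 : cjr r = el k r * B * el k r⁻¹ := rfl
    rcases horth (r⁻¹ * s) with h | h
    · left
      rw [h1, h2]
      calc el k r * B * el k r⁻¹ * (el k r * cjr (r⁻¹ * s) * el k r⁻¹)
          = el k r * B * (el k r⁻¹ * el k r) * cjr (r⁻¹ * s) * el k r⁻¹ := by noncomm_ring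
        _ = el k r * (B * cjr (r⁻¹ * s)) * el k r⁻¹ := by rw [el_inv_mul_el]; noncomm_ring
        _ = 0 := by
            rw [hcjr, h, mul_zero, zero_mul]
    · right
      rw [h1]
      rw [hcjr (r⁻¹ * s), h]
  let Cs : Finset (MonoidAlgebra k R) := Finset.univ.image cjr
  have hCs : ∀ y, y ∈ Cs ↔ ∃ r, cjr r = y := by
    intro y
    simp [Cs]
  let rep : MonoidAlgebra k R → R := fun y => if h : ∃ r, cjr r = y then h.choose else 1
  have hrep : ∀ r, cjr (rep (cjr r)) = cjr r := by
    intro r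
    have h1 : ∃ r', cjr r' = cjr r := ⟨r, rfl⟩
    have h2 : rep (cjr r) = h1.choose := dif_pos h1
    rw [h2]
    exact h1.choose_spec
  let T : Finset R := Finset.univ.filter (fun r => rep (cjr r) = r)
  have hT : ∑ r ∈ T, cjr r = ∑ y ∈ Cs, y := by
    apply Finset.sum_bij (fun r _ => cjr r)
    · intro r _
      exact (hCs _).mpr ⟨r, rfl⟩
    · intro r hr r' hr' h
      have h1 : rep (cjr r) = r := (Finset.mem_filter.mp hr).2
      have h2 : rep (cjr r') = r' := (Finset.mem_filter.mp hr').2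
      rw [← h1, ← h2, h]
    · intro y hy
      obtain ⟨r, rfl⟩ := (hCs y).mp hy
      refine ⟨rep (cjr r), ?_, hrep r⟩
      rw [Finset.mem_filter]
      exact ⟨Finset.mem_univ _, by rw [hrep]⟩
    · intro r _
      rfl
  let f : MonoidAlgebra k R := ∑ y ∈ Cs, y
  have hf : f = ∑ r ∈ T, cjr r := hT.symm
  have hff : f * f = f := by
    change (∑ y ∈ Cs, y) * (∑ y ∈ Cs, y) = ∑ y ∈ Cs, y
    rw [Finset.sum_mul]
    refine Finset.sum_congr rfl fun y hy => ?_
    obtain ⟨r, rfl⟩ := (hCs y).mp hy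
    rw [Finset.mul_sum, Finset.sum_eq_single (cjr r)]
    · exact hcji r
    · intro z hz hne
      obtain ⟨s, rfl⟩ := (hCs z).mp hz
      rcases hpair r s with h | h
      · exact h
      · exact absurd h.symm hne
    · intro h
      exact absurd hy h
  have hfB : f * B = B := by
    change (∑ y ∈ Cs, y) * B = B
    rw [Finset.sum_mul, Finset.sum_eq_single B]
    · exact hbb
    · intro z hz hne
      obtain ⟨s, rfl⟩ := (hCs z).mp hz
      rw [← hcj1]
      rcases hpair s 1 with h | h
      · exact h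
      · exact absurd (h.trans hcj1) hne
    · intro h
      exact absurd ((hCs B).mpr ⟨1, hcj1⟩) h
  have hfg : ∀ g, el k g * f * el k g⁻¹ = f := by
    intro g
    change el k g * (∑ y ∈ Cs, y) * el k g⁻¹ = ∑ y ∈ Cs, y
    rw [Finset.mul_sum, Finset.sum_mul]
    apply Finset.sum_bij (fun y _ => el k g * y * el k g⁻¹)
    · intro y hy
      obtain ⟨r, rfl⟩ := (hCs y).mp hy
      exact (hCs _).mpr ⟨g * r, (hcjm g r).symm⟩
    · intro y _ z _ h
      have h1 : ∀ y : MonoidAlgebra k R, y = el k g⁻¹ * (el k g * y * el k g⁻¹) * el k g := by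
        intro y
        calc y = 1 * y * 1 := by rw [one_mul, mul_one]
          _ = (el k g⁻¹ * el k g) * y * (el k g⁻¹ * el k g) := by rw [el_inv_mul_el]
          _ = _ := by noncomm_ring
      rw [h1 y, h1 z, h]
    · intro y hy
      obtain ⟨r, rfl⟩ := (hCs y).mp hy
      refine ⟨cjr (g⁻¹ * r), (hCs _).mpr ⟨_, rfl⟩, ?_⟩
      rw [hcjm, mul_inv_cancel_left]
    · intro y _
      rfl
  have hfc : ∀ a, a * f = f * a := by
    intro a
    induction a using MonoidAlgebra.induction_linear with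
    | zero => simp
    | add x y hx hy => rw [add_mul, mul_add, hx, hy]
    | single g r =>
      rw [single_eq, smul_mul_assoc, mul_smul_comm]
      congr 1
      calc el k g * f = el k g * f * (el k g⁻¹ * el k g) := by rw [el_inv_mul_el, mul_one]
        _ = (el k g * f * el k g⁻¹) * el k g := by noncomm_ring
        _ = f * el k g := by rw [hfg]
  have hf0 : f ≠ 0 := by
    intro h
    rw [h, zero_mul] at hfB
    exact hb0 hfB.symm
  -- the simple modules of `k[R]`
  obtain ⟨m, d, P, hpos, hPs, hPn⟩ := exists_wedd k R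
  let τ : Fin m → MonoidAlgebra k R →ₗ[k] k := fun i =>
    (Matrix.traceLinearMap (Fin (d i)) k k).comp ((Pi.evalAlgHom k _ i).comp P).toLinearMap
  have hτ : ∀ i x, τ i x = (P x i).trace := fun i x => rfl
  have hτc : ∀ i x y, τ i (x * y) = τ i (y * x) := by
    intro i x y
    rw [hτ, hτ, map_mul, map_mul, Pi.mul_apply, Pi.mul_apply, Matrix.trace_mul_comm]
  have hτn : ∀ i x, IsNilpotent x → τ i x = 0 := by
    intro i x hx
    rw [hτ]
    have h1 : IsNilpotent (((Pi.evalAlgHom k _ i).comp P) x) := hx.map _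
    exact (Matrix.isNilpotent_trace_of_isNilpotent h1).eq_zero
  have h01 : ∀ i, P f i = 0 ∨ P f i = 1 := by
    intro i
    apply central_idem (hpos i)
    · rw [← Pi.mul_apply, ← map_mul, hff]
    · intro Y
      obtain ⟨a, ha⟩ := hPs (Function.update 0 i Y)
      have ha' : P a i = Y := by rw [ha, Function.update_self]
      rw [← ha', ← Pi.mul_apply, ← Pi.mul_apply, ← map_mul, ← map_mul, hfc]
  have hex : ∃ i, P f i = 1 := by
    by_contra hno
    push Not at hno
    apply hf0
    apply idem_nil hff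
    apply hPn
    funext i
    rcases h01 i with h0 | h1
    · exact h0
    · exact absurd h1 (hno i)
  -- the traces on the image of `φ`
  obtain ⟨sec, hsec⟩ := S.ρ.toLinearMap.exists_rightInverse_of_surjective
    (LinearMap.range_eq_top.mpr S.surj)
  have hsec' : ∀ X, S.ρ (sec X) = X := fun X => LinearMap.congr_fun hsec X
  have hc : ∀ i, ∃ c : k, ∀ a : MonoidAlgebra k C, τ i (Ph k φ a * B) = c * (S.ρ a).trace := by
    intro i
    let Ti : MonoidAlgebra k C →ₗ[k] k :=
      (τ i).comp ((LinearMap.mulRight k B).comp (Ph k φ).toLinearMap)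
    have hTi : ∀ a, Ti a = τ i (Ph k φ a * B) := fun a => rfl
    have hTi0 : ∀ a, S.ρ a = 0 → Ti a = 0 := by
      intro a ha
      rw [hTi, hB, ← map_mul]
      exact hτn i _ ((S.nil a ha).map (Ph k φ))
    have hTi1 : ∀ a a', S.ρ a = S.ρ a' → Ti a = Ti a' := by
      intro a a' h
      have := hTi0 (a - a') (by rw [map_sub, h, sub_self])
      rwa [map_sub, sub_eq_zero] at this
    have hμ := linear_trace S.pos (Ti.comp sec) (by
      intro X Y
      change Ti (sec (X * Y)) = Ti (sec (Y * X))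
      have h1 : Ti (sec (X * Y)) = Ti (sec X * sec Y) := hTi1 _ _ (by
        rw [hsec', map_mul S.ρ, hsec', hsec'])
      have h2 : Ti (sec (Y * X)) = Ti (sec Y * sec X) := hTi1 _ _ (by
        rw [hsec', map_mul S.ρ, hsec', hsec'])
      rw [h1, h2, hTi, hTi, map_mul (Ph k φ), map_mul (Ph k φ)]
      calc τ i (Ph k φ (sec X) * Ph k φ (sec Y) * B)
          = τ i (Ph k φ (sec X) * (Ph k φ (sec Y) * B)) := by rw [mul_assoc]
        _ = τ i ((Ph k φ (sec Y) * B) * Ph k φ (sec X)) := hτc _ _ _
        _ = τ i (Ph k φ (sec Y) * Ph k φ (sec X) * B) := by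
            rw [mul_assoc, ← hbc, mul_assoc])
    refine ⟨(Ti.comp sec) (Matrix.single ⟨0, S.pos⟩ ⟨0, S.pos⟩ 1), fun a => ?_⟩
    have h1 := hμ (S.ρ a)
    have h2 : (Ti.comp sec) (S.ρ a) = τ i (Ph k φ a * B) := by
      change Ti (sec (S.ρ a)) = Ti a
      exact hTi1 _ _ (hsec' _)
    rw [← h2, h1]
  choose c hc using hc
  -- the traces of the elements of `R`
  have hw : ∀ g : R, ∃ w : k, ∀ i, P f i = 1 → τ i (el k g) = c i * w := by
    intro g
    obtain ⟨u, v, hguv, huv, ⟨e, hu⟩, hv⟩ := exists_odd_part g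
    have hvr := hodd v hv
    have hcr : ∀ r : R, ∃ c' : C, φ c' = r⁻¹ * v * r := by
      intro r
      have := hnorm.conj_mem v hvr r⁻¹
      rw [inv_inv] at this
      exact this
    choose cr hcr using hcr
    refine ⟨∑ r ∈ T, (S.ρ (el k (cr r))).trace, fun i hi => ?_⟩
    have h1 : τ i (el k g) = τ i (el k v) := by
      have h2 : el k g = el k v + (el k u - 1) * el k v := by
        rw [hguv, el_mul]; noncomm_ring
      have h3 : IsNilpotent ((el k u - 1) * el k v) := by
        refine ⟨2 ^ e, ?_⟩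
        have hcomm : Commute (el k u - 1) (el k v) := by
          change (el k u - 1) * el k v = el k v * (el k u - 1)
          rw [sub_mul, mul_sub, one_mul, mul_one, ← el_mul, ← el_mul, huv.eq]
        rw [hcomm.mul_pow, el_sub_one_nil u e hu, zero_mul]
      rw [h2, map_add, hτn i _ h3, add_zero]
    have h4 : τ i (el k v) = τ i (el k v * f) := by
      rw [hτ, hτ, map_mul, Pi.mul_apply, hi, mul_one]
    rw [h1, h4, hf, Finset.mul_sum, map_sum, Finset.mul_sum]
    refine Finset.sum_congr rfl fun r _ => ?_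
    have h5 : τ i (el k v * cjr r) = τ i (el k (r⁻¹ * v * r) * B) := by
      rw [hcjr]
      calc τ i (el k v * (el k r * B * el k r⁻¹))
          = τ i ((el k v * el k r * B) * el k r⁻¹) := by
            congr 1; noncomm_ring
        _ = τ i (el k r⁻¹ * (el k v * el k r * B)) := hτc _ _ _
        _ = τ i (el k (r⁻¹ * v * r) * B) := by
            rw [el_mul, el_mul]
            congr 1; noncomm_ring
    rw [h5, ← hcr, ← Ph_el, hc]
  choose w hw using hw
  have hW : ∀ i, P f i = 1 → ∀ x : MonoidAlgebra k R, τ i x = c i * ∑ g : R, x.coeff g * w g := by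
    intro i hi x
    have h1 : x = ∑ g : R, x.coeff g • el k g := by
      ext g
      rw [MonoidAlgebra.coeff_sum, Finset.sum_apply', Finset.sum_eq_single g]
      · rw [MonoidAlgebra.coeff_smul, Finsupp.smul_apply, el_coeff, if_pos rfl, smul_eq_mul, mul_one]
      · intro g' _ hg'
        rw [MonoidAlgebra.coeff_smul, Finsupp.smul_apply, el_coeff, if_neg hg', smul_zero]
      · intro h
        exact absurd (Finset.mem_univ _) h
    conv_lhs => rw [h1]
    rw [map_sum, Finset.mul_sum]
    refine Finset.sum_congr rfl fun g _ => ?_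
    rw [map_smul, hw g i hi, smul_eq_mul]
    ring
  obtain ⟨i, hi⟩ := hex
  have huniq : ∀ j, j ≠ i → P f j = 0 := by
    intro j hj
    rcases h01 j with h0 | h1
    · exact h0
    exfalso
    obtain ⟨x, hx⟩ := hPs (Function.update 0 i (Matrix.single ⟨0, hpos i⟩ ⟨0, hpos i⟩ 1))
    obtain ⟨y, hy⟩ := hPs (Function.update 0 j (Matrix.single ⟨0, hpos j⟩ ⟨0, hpos j⟩ 1))
    have hxi : τ i x = 1 := by
      rw [hτ, hx, Function.update_self, Matrix.trace_single_eq_same]
    have hxj : τ j x = 0 := by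
      rw [hτ, hx, Function.update_of_ne hj, Pi.zero_apply, Matrix.trace_zero]
    have hyj : τ j y = 1 := by
      rw [hτ, hy, Function.update_self, Matrix.trace_single_eq_same]
    rw [hW i hi] at hxi
    rw [hW j h1] at hxj hyj
    have h2 : (∑ g : R, x.coeff g * w g) ≠ 0 := by
      intro h
      rw [h, mul_zero] at hxi
      exact zero_ne_one hxi
    have h3 : c j = 0 := by
      rcases mul_eq_zero.mp hxj with h | h
      · exact h
      · exact absurd h h2
    rw [h3, zero_mul] at hyj
    exact zero_ne_one hyj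
  let Sf : SimpleQuot f :=
    { n := d i
      ρ := (Pi.evalAlgHom k _ i).comp P
      pos := hpos i
      surj := by
        intro X
        obtain ⟨a, ha⟩ := hPs (Function.update 0 i X)
        refine ⟨a, ?_⟩
        change P a i = X
        rw [ha, Function.update_self]
      one := hi
      nil := by
        intro a ha
        have ha' : P a i = 0 := ha
        apply hPn
        funext j
        rw [map_mul, Pi.mul_apply]
        by_cases hj : j = i
        · subst hj
          rw [ha', zero_mul, Pi.zero_apply]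
        · rw [huniq j hj, mul_zero, Pi.zero_apply] }
  exact ⟨f, T, block_of_simpleQuot Sf hff hfc, ⟨Sf⟩, hfB, hf⟩

end main

end Pool.Agent.Helper52.NO
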